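import Pool.Agent.H39.HW.SBas

/-!
# Project HW, scheme side: part sLMN
-/

set_option autoImplicit false
open Classical Finset

namespace Pool.Agent.H9.HW

open Pool.Agent.H39.HW Pool.Agent.H39.HW.Sc

theorem mem_mid {x : Prm} {β : ℕ} : β ∈ x.mid ↔ x.b0 ≤ β ∧ β < x.b1 := by
  unfold Prm.mid
  exact Finset.mem_Ico

/-- the final numerical inequality of LMN, everything divided by `θ` -/
theorem lmn_num {c η μ κ j m A Bv T n S : ℝ} (hc0 : 10 ^ 4 * η ≤ c) (hc : c < 1 / 2)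
    (hη : 0 < η) (hη1 : η ≤ 1 / 100000) (hμ : 0 < μ) (hμ1 : μ ≤ η / 100) (hκ1 : c - η ≤ κ)
    (hκ2 : κ ≤ c + η) (hj0 : 0 ≤ j) (hj : j ≤ η) (hm1 : 1 - η ≤ m) (hm2 : m ≤ 1 + η)
    (hA1 : 2 / 5 - η ≤ A) (hA2 : A ≤ 2 / 5 + η) (hB1 : 1 - η ≤ Bv) (hB2 : Bv ≤ 1 + η)
    (hT1 : (κ + j - μ) * A ≤ T) (hT2 : T ≤ (κ + j) * A + η / 100)
    (hn1 : (m - 2 * κ - 2 * μ) * Bv ≤ n) (hn2 : n ≤ (m - 2 * κ - μ) * Bv)
    (hS1 : 1 - η ≤ S) (hS2 : S ≤ 1) :
    |S / 2 - T - n / 2 - 3 / 5 * c| ≤ 20 * η := by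
  have a1 : (c - 2 * η) * (2 / 5 - η) ≤ (κ + j - μ) * A :=
    mul_le_mul (by linarith) hA1 (by linarith) (by linarith)
  have a2 : (κ + j) * A ≤ (c + 2 * η) * (2 / 5 + η) :=
    mul_le_mul (by linarith) hA2 (by linarith) (by linarith)
  have a3 : (1 - 2 * c - 4 * η) * (1 - η) ≤ (m - 2 * κ - 2 * μ) * Bv := by
    by_cases h : 0 ≤ 1 - 2 * c - 4 * η
    · exact mul_le_mul (by linarith) hB1 (by linarith) (by linarith)
    · push Not at h
      nlinarith
  have a4 : (m - 2 * κ - μ) * Bv ≤ (1 - 2 * c + 3 * η) * (1 + η) :=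
    mul_le_mul (by linarith) hB2 (by linarith) (by nlinarith)
  rw [abs_le]
  constructor
  · nlinarith
  · nlinarith

theorem t_LMN (hB : S_BLK) (hM : S_MMD) (hC : S_CLD) (hT : S_TOT) (hJ : S_DJN) : S_LMN := by
  intro x hx a ha h1 h2
  obtain ⟨-, -, -, -, B1, B2, B3, B4⟩ := hB x hx
  obtain ⟨-, hM'⟩ := hM x hx
  obtain ⟨M1, M2, M3, M4⟩ := hM' a ha
  obtain ⟨C1, C2, C3, C4, C5⟩ := hC x hx a ha
  obtain ⟨J1, -⟩ := hJ x hx a ha
  obtain ⟨T1, T2⟩ := hx.Dt_bounds hT ha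
  have hθ := hx.t0
  have hη := hx.n0
  have hη1 := hx.eta_le
  have hμ := hx.m0
  have hDpos := hx.Dpos
  have hbb := hx.b0_lt_b1
  have hbB := hx.b1_le_B
  have hJ1 := hx.J1
  have hcη : 10 ^ 4 * x.η ≤ x.c := hx.n1.trans hx.c1
  have hDJ : 0 < x.DJ a := by
    refine lt_of_lt_of_le ?_ J1
    apply mul_pos _ hθ
    linarith
  have hlam : x.lam a * x.DJ a = x.Dt a / 2 - ∑ β ∈ x.cls a, x.gA 0 a β * x.dem a β := by
    unfold Prm.lam
    exact div_mul_cancel₀ _ hDJ.ne'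
  have hg : ∑ β ∈ x.cls a, x.gA 0 a β * x.dem a β =
      ∑ β ∈ (x.cls a).filter (fun β => x.b1 ≤ β), x.dem a β + 1 / 2 * x.DN a +
        1 / 2 * ∑ β ∈ (x.cls a).filter (fun β => β ∈ x.mid ∧ ¬ x.adj a β), x.dem a β := by
    unfold Prm.DN Prm.Nx
    rw [Finset.sum_filter, Finset.sum_filter, Finset.sum_filter, Finset.mul_sum, Finset.mul_sum,
      ← Finset.sum_add_distrib, ← Finset.sum_add_distrib]
    refine Finset.sum_congr rfl fun β hβ => ?_
    have n1 : ¬ (x.b1 ≤ a + x.K) := by omega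
    have n2 : ¬ (a < x.b0 + x.K) := by omega
    unfold Prm.gA
    simp only [mem_mid]
    by_cases c1 : β < x.b0
    · have d1 : ¬ x.b1 ≤ β := by omega
      have d2 : ¬ x.b0 ≤ β := by omega
      simp [c1, d1, d2]
    · have d2 : x.b0 ≤ β := by omega
      by_cases c2 : x.b1 ≤ β
      · have d3 : ¬ β < x.b1 := by omega
        simp [c1, c2, d3]
      · have d3 : β < x.b1 := by omega
        by_cases c3 : x.adj a β
        · by_cases c4 : β < a
          · simp [c1, c2, c3, c4, d2, d3, n1]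
          · simp [c1, c2, c3, c4, n1]
        · simp [c1, c2, c3, d2, d3, n1, n2]
  -- the top blocks
  have htop : (x.cls a).filter (fun β => x.b1 ≤ β) = (Finset.Ico x.b1 x.B).erase (sm x.B a a) := by
    ext β
    rw [Finset.mem_filter, Finset.mem_erase, Finset.mem_Ico]
    constructor
    · rintro ⟨h3, h4⟩
      have h5 := (C1 β).1 h3
      exact ⟨h5.2.2.1, h4, h5.1⟩
    · rintro ⟨h3, h4, h5⟩
      refine ⟨C2 ((M1 β).2 ⟨h5, ?_, h3⟩), h4⟩
      intro h6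
      unfold Prm.adj at h6
      omega
  have hnadj : ∀ β, x.b1 ≤ β → ¬ x.adj a β := by
    intro β h3 h6
    unfold Prm.adj at h6
    omega
  have hdem : ∀ β ∈ (Finset.Ico x.b1 x.B).erase (sm x.B a a),
      x.dem a β = (ln x.st β : ℝ) / x.D - x.μ := by
    intro β hβ
    rw [← htop, Finset.mem_filter] at hβ
    exact C4 β hβ.1 (hnadj β hβ.2)
  have hA0 : 0 ≤ (x.w : ℝ) / x.D - x.μ := by linarith [hx.mu_le_ls]
  have hlnge : ∀ β, x.b1 ≤ β → β < x.B → (x.w : ℝ) / x.D ≤ (ln x.st β : ℝ) / x.D := by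
    intro β h3 h4
    apply div_le_div_of_nonneg_right _ hDpos.le
    by_cases h5 : β + 1 < x.B
    · rw [B3 β h3 h5]
    · exact_mod_cast (B4 β (by omega)).1
  have htop1 : ((x.K : ℝ) + x.J - 1) * ((x.w : ℝ) / x.D - x.μ) ≤
      ∑ β ∈ (x.cls a).filter (fun β => x.b1 ≤ β), x.dem a β := by
    rw [htop, Finset.sum_congr rfl hdem]
    have h3 : ((Finset.Ico x.b1 x.B).erase (sm x.B a a)).card • ((x.w : ℝ) / x.D - x.μ) ≤
        ∑ β ∈ (Finset.Ico x.b1 x.B).erase (sm x.B a a), ((ln x.st β : ℝ) / x.D - x.μ) := by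
      apply Finset.card_nsmul_le_sum
      intro β hβ
      rw [Finset.mem_erase, Finset.mem_Ico] at hβ
      linarith [hlnge β hβ.2.1 hβ.2.2]
    refine le_trans ?_ h3
    rw [nsmul_eq_mul]
    apply mul_le_mul_of_nonneg_right _ hA0
    have h4 : x.K + x.J ≤ ((Finset.Ico x.b1 x.B).erase (sm x.B a a)).card + 1 := by
      have := Finset.pred_card_le_card_erase (s := Finset.Ico x.b1 x.B) (a := sm x.B a a)
      rw [Nat.card_Ico] at this
      omega
    have h5 : ((x.K : ℝ) + x.J) ≤ (((Finset.Ico x.b1 x.B).erase (sm x.B a a)).card : ℝ) + 1 := by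
      exact_mod_cast h4
    linarith
  have htop2 : ∑ β ∈ (x.cls a).filter (fun β => x.b1 ≤ β), x.dem a β ≤
      ((x.K : ℝ) + x.J) * ((x.w : ℝ) / x.D - x.μ) + (x.M : ℝ) / x.D := by
    rw [htop, Finset.sum_congr rfl hdem]
    have h3 : ∑ β ∈ (Finset.Ico x.b1 x.B).erase (sm x.B a a), ((ln x.st β : ℝ) / x.D - x.μ) ≤
        ∑ β ∈ Finset.Ico x.b1 x.B, (((x.w : ℝ) / x.D - x.μ) +
          (if β + 1 = x.B then (x.M : ℝ) / x.D else 0)) := by
      refine le_trans (Finset.sum_le_sum_of_subset_of_nonneg (Finset.erase_subset _ _) ?_)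
        (Finset.sum_le_sum ?_)
      · intro β hβ _
        rw [Finset.mem_Ico] at hβ
        linarith [hlnge β hβ.1 hβ.2]
      · intro β hβ
        rw [Finset.mem_Ico] at hβ
        by_cases h5 : β + 1 < x.B
        · rw [B3 β hβ.1 h5, if_neg (by omega)]
          linarith
        · rw [if_pos (by omega)]
          have h6 : (ln x.st β : ℝ) ≤ x.w + x.M := by exact_mod_cast (B4 β (by omega)).2
          have h7 := div_le_div_of_nonneg_right h6 hDpos.le
          rw [add_div] at h7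
          linarith
    refine h3.trans ?_
    rw [Finset.sum_add_distrib, Finset.sum_const, Nat.card_Ico, nsmul_eq_mul]
    have h8 : ((x.B - x.b1 : ℕ) : ℝ) = (x.K : ℝ) + x.J := by
      have : x.B - x.b1 = x.K + x.J := by omega
      rw [this]; push_cast; ring
    rw [h8]
    have h9 : ∑ β ∈ Finset.Ico x.b1 x.B, (if β + 1 = x.B then (x.M : ℝ) / x.D else 0) ≤
        (x.M : ℝ) / x.D := by
      rw [← Finset.sum_filter, Finset.sum_const, nsmul_eq_mul]
      have h10 : ((Finset.Ico x.b1 x.B).filter (fun β => β + 1 = x.B)).card ≤ 1 := by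
        rw [Finset.card_le_one]
        intro b hb b' hb'
        rw [Finset.mem_filter] at hb hb'
        omega
      have h11 : (((Finset.Ico x.b1 x.B).filter (fun β => β + 1 = x.B)).card : ℝ) ≤ 1 := by
        exact_mod_cast h10
      have h12 : (0 : ℝ) ≤ (x.M : ℝ) / x.D := by positivity
      nlinarith
    linarith
  -- the middle blocks
  have hmid : (x.cls a).filter (fun β => β ∈ x.mid ∧ ¬ x.adj a β) =
      (Finset.Ico x.b0 (a - x.K) ∪ Finset.Ico (a + x.K + 1) x.b1).erase (sm x.B a a) := by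
    ext β
    rw [Finset.mem_filter, Finset.mem_erase, Finset.mem_union, Finset.mem_Ico, Finset.mem_Ico,
      mem_mid]
    constructor
    · rintro ⟨h3, ⟨h4, h5⟩, h6⟩
      have h7 := (C1 β).1 h3
      refine ⟨h7.2.2.1, ?_⟩
      unfold Prm.adj at h6
      omega
    · rintro ⟨h3, h4⟩
      have h6 : ¬ x.adj a β := by
        intro h6
        unfold Prm.adj at h6
        omega
      refine ⟨C2 ((M1 β).2 ⟨by omega, h6, h3⟩), by omega, h6⟩
  have hdem2 : ∀ β ∈ (x.cls a).filter (fun β => β ∈ x.mid ∧ ¬ x.adj a β),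
      x.dem a β = (x.v : ℝ) / x.D - x.μ := by
    intro β hβ
    rw [Finset.mem_filter, mem_mid] at hβ
    rw [C4 β hβ.1 hβ.2.2, B2 β hβ.2.1.1 hβ.2.1.2]
  have hcard0 : (Finset.Ico x.b0 (a - x.K) ∪ Finset.Ico (a + x.K + 1) x.b1).card =
      (a - x.K - x.b0) + (x.b1 - (a + x.K + 1)) := by
    rw [Finset.card_union_of_disjoint, Nat.card_Ico, Nat.card_Ico]
    rw [Finset.disjoint_left]
    intro β hβ hβ'
    rw [Finset.mem_Ico] at hβ hβ'
    omega
  have hMb : x.b1 = x.b0 + x.M := rfl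
  have hcard1 : x.M ≤ ((x.cls a).filter (fun β => β ∈ x.mid ∧ ¬ x.adj a β)).card +
      2 * x.K + 2 := by
    rw [hmid]
    have := Finset.pred_card_le_card_erase
      (s := Finset.Ico x.b0 (a - x.K) ∪ Finset.Ico (a + x.K + 1) x.b1) (a := sm x.B a a)
    rw [hcard0] at this
    omega
  have hcard2 : ((x.cls a).filter (fun β => β ∈ x.mid ∧ ¬ x.adj a β)).card + 2 * x.K + 1 ≤
      x.M := by
    rw [hmid]
    have := Finset.card_erase_le
      (s := Finset.Ico x.b0 (a - x.K) ∪ Finset.Ico (a + x.K + 1) x.b1) (a := sm x.B a a)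
    rw [hcard0] at this
    omega
  have hsum2 : ∑ β ∈ (x.cls a).filter (fun β => β ∈ x.mid ∧ ¬ x.adj a β), x.dem a β =
      (((x.cls a).filter (fun β => β ∈ x.mid ∧ ¬ x.adj a β)).card : ℝ) *
        ((x.v : ℝ) / x.D - x.μ) := by
    rw [Finset.sum_congr rfl hdem2, Finset.sum_const, nsmul_eq_mul]
  rw [hlam, hg, hsum2]
  rw [show x.Dt a / 2 - (∑ β ∈ (x.cls a).filter (fun β => x.b1 ≤ β), x.dem a β +
    1 / 2 * x.DN a + 1 / 2 * ((((x.cls a).filter (fun β => β ∈ x.mid ∧ ¬ x.adj a β)).card : ℝ) *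
        ((x.v : ℝ) / x.D - x.μ))) + x.DN a / 2 =
      x.Dt a / 2 - ∑ β ∈ (x.cls a).filter (fun β => x.b1 ≤ β), x.dem a β -
        (((x.cls a).filter (fun β => β ∈ x.mid ∧ ¬ x.adj a β)).card : ℝ) *
        ((x.v : ℝ) / x.D - x.μ) / 2 from by ring]
  set TT := ∑ β ∈ (x.cls a).filter (fun β => x.b1 ≤ β), x.dem a β with hTT
  set nn := ((x.cls a).filter (fun β => β ∈ x.mid ∧ ¬ x.adj a β)).card with hnn
  have hθμ := hx.tmpos
  -- normalised quantities
  have hA : |((x.w : ℝ) / x.D - x.μ) / (x.θ * x.μ) - 2 / 5| ≤ x.η := by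
    have h3 : ((x.w : ℝ) / x.D - x.μ) / (x.θ * x.μ) - 2 / 5 =
        ((x.w : ℝ) / x.D - x.μ - 2 / 5 * x.θ * x.μ) / (x.θ * x.μ) := by
      field_simp
    rw [h3, abs_div, abs_of_pos hθμ, div_le_iff₀ hθμ]
    have := hx.s1
    rw [← mul_assoc]
    exact this
  have hBv : |((x.v : ℝ) / x.D - x.μ) / (x.θ * x.μ) - 1| ≤ x.η := by
    have h3 : ((x.v : ℝ) / x.D - x.μ) / (x.θ * x.μ) - 1 =
        ((x.v : ℝ) / x.D - x.μ - x.θ * x.μ) / (x.θ * x.μ) := by
      field_simp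
    rw [h3, abs_div, abs_of_pos hθμ, div_le_iff₀ hθμ]
    have := hx.s2
    rw [← mul_assoc]
    exact this
  set A := ((x.w : ℝ) / x.D - x.μ) / (x.θ * x.μ) with hAdef
  set Bv := ((x.v : ℝ) / x.D - x.μ) / (x.θ * x.μ) with hBdef
  have hAe : (x.w : ℝ) / x.D - x.μ = A * (x.θ * x.μ) := by
    rw [hAdef, div_mul_cancel₀ _ hθμ.ne']
  have hBe : (x.v : ℝ) / x.D - x.μ = Bv * (x.θ * x.μ) := by
    rw [hBdef, div_mul_cancel₀ _ hθμ.ne']
  have hBv0 : 0 < Bv := by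
    have := (abs_le.mp hBv).1
    linarith
  obtain ⟨hk1, hk2⟩ := hx.Kmu
  obtain ⟨hm1, hm2⟩ := hx.Mmu
  obtain ⟨hj1, hj2⟩ := hx.Jmu
  have hμs : x.μ ≤ x.η / 100 := by
    have h3 := hx.mu_small
    have h4 := hx.th_le
    nlinarith
  have hMs : (x.M : ℝ) / x.D / x.θ ≤ x.η / 100 := by
    have h3 := hx.Msmall
    have h4 : (x.M : ℝ) / x.D ≤ ((x.M : ℝ) + 1) / x.D :=
      div_le_div_of_nonneg_right (by linarith) hDpos.le
    rw [div_le_iff₀ hθ]
    have h5 : x.η * x.θ * x.μ / 10 ^ 9 ≤ x.η / 100 * x.θ := by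
      have h6 : x.μ ≤ 1 := by linarith
      have h7 : 0 < x.η * x.θ := mul_pos hη hθ
      nlinarith
    linarith
  have hfin := lmn_num (c := x.c) (η := x.η) (μ := x.μ) (κ := x.K * x.μ) (j := x.J * x.μ)
    (m := x.M * x.μ) (A := A) (Bv := Bv) (T := TT / x.θ) (n := nn * x.μ * Bv) (S := x.Dt a / x.θ)
    hcη hx.c_lt hη hη1 hμ hμs hk1 hk2 hj1 hj2 hm1 hm2 (by linarith [(abs_le.mp hA).1])
    (by linarith [(abs_le.mp hA).2]) (by linarith [(abs_le.mp hBv).1])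
    (by linarith [(abs_le.mp hBv).2])
    (by
      rw [le_div_iff₀ hθ]
      refine le_trans (le_of_eq ?_) htop1
      rw [hAe]; ring)
    (by
      rw [div_le_iff₀ hθ]
      refine htop2.trans ?_
      rw [hAe, add_mul]
      have h3 : (x.M : ℝ) / x.D ≤ x.η / 100 * x.θ := by
        rwa [div_le_iff₀ hθ] at hMs
      linarith)
    (by
      apply mul_le_mul_of_nonneg_right _ hBv0.le
      have h3 : (x.M : ℝ) ≤ nn + 2 * x.K + 2 := by exact_mod_cast hcard1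
      nlinarith)
    (by
      apply mul_le_mul_of_nonneg_right _ hBv0.le
      have h3 : (nn : ℝ) + 2 * x.K + 1 ≤ x.M := by exact_mod_cast hcard2
      nlinarith)
    (by
      rw [le_div_iff₀ hθ]
      exact T1)
    (by
      rw [div_le_iff₀ hθ, one_mul]
      exact T2)
  have hlast : x.Dt a / 2 - TT - (nn : ℝ) * ((x.v : ℝ) / x.D - x.μ) / 2 - 3 / 5 * x.c * x.θ =
      (x.Dt a / x.θ / 2 - TT / x.θ - (nn : ℝ) * x.μ * Bv / 2 - 3 / 5 * x.c) * x.θ := by
    rw [hBe]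
    field_simp
  rw [hlast, abs_mul, abs_of_pos hθ]
  exact mul_le_mul_of_nonneg_right hfin hθ.le

end Pool.Agent.H9.HW
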